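import Pool.Agent.W2helper92.CS.Stm

/-!
# Project GC, piece U1: lattice points with `|x - y| ≤ 2 b`, `|x + y| ≤ 2 a`
-/

set_option autoImplicit false

namespace Pool.Agent.W2helper12.CS

open Finset Pool.Agent.W2helper92.CS

theorem p_u1 : P_U1 := by
  intro M a b hba hM
  have hE : (Sq M).filter
      (fun s : ℤ × ℤ => |s.1 - s.2| ≤ 2 * (b : ℤ) ∧ |s.1 + s.2| ≤ 2 * (a : ℤ)) =
      ((Icc (-(a : ℤ)) a ×ˢ Icc (-(b : ℤ)) b).image fun s : ℤ × ℤ => (s.1 + s.2, s.1 - s.2)) ∪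
      ((Icc (-(a : ℤ)) (a - 1) ×ˢ Icc (-(b : ℤ)) (b - 1)).image
        fun s : ℤ × ℤ => (s.1 + s.2 + 1, s.1 - s.2)) := by
    ext ⟨x, y⟩
    simp only [mem_filter, Sq, mem_product, mem_Icc, mem_union, mem_image, Prod.mk.injEq,
      Prod.exists, abs_le]
    constructor
    · rintro ⟨⟨⟨h1, h2⟩, h3, h4⟩, ⟨h5, h6⟩, h7, h8⟩
      obtain ⟨k, hk | hk⟩ := Int.even_or_odd' (x - y)
      · left
        exact ⟨y + k, k, by omega, by omega, by omega⟩
      · right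
        exact ⟨y + k, k, by omega, by omega, by omega⟩
    · rintro (⟨i, j, h, rfl, rfl⟩ | ⟨i, j, h, rfl, rfl⟩)
      · omega
      · omega
  rw [hE, card_union_of_disjoint, card_image_of_injective, card_image_of_injective, card_product,
    card_product, Int.card_Icc, Int.card_Icc, Int.card_Icc, Int.card_Icc]
  · have e1 : ((a : ℤ) + 1 - -(a : ℤ)).toNat = 2 * a + 1 := by omega
    have e2 : ((b : ℤ) + 1 - -(b : ℤ)).toNat = 2 * b + 1 := by omega
    have e3 : ((a : ℤ) - 1 + 1 - -(a : ℤ)).toNat = 2 * a := by omega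
    have e4 : ((b : ℤ) - 1 + 1 - -(b : ℤ)).toNat = 2 * b := by omega
    rw [e1, e2, e3, e4]
    push_cast
    ring
  · rintro ⟨i, j⟩ ⟨i', j'⟩ h
    simp only [Prod.mk.injEq] at h ⊢
    omega
  · rintro ⟨i, j⟩ ⟨i', j'⟩ h
    simp only [Prod.mk.injEq] at h ⊢
    omega
  · rw [Finset.disjoint_left]
    rintro ⟨x, y⟩ h1 h2
    simp only [mem_image, Prod.mk.injEq, Prod.exists] at h1 h2
    obtain ⟨i, j, -, h3, h4⟩ := h1
    obtain ⟨i', j', -, h5, h6⟩ := h2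
    omega

end Pool.Agent.W2helper12.CS
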